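import Pool.Agent.ATI.Defs

set_option autoImplicit false
open MeasureTheory


namespace ATI.Act
open ATI


/-! ## TARGET (prove this) -/

/-- The induced action of `H` on `Z`. -/
theorem action {Ω X₀ H W : Type} [MeasurableSpace Ω] [StandardBorelSpace Ω] [MeasurableSpace X₀]
    [Group H] [Group W] [Countable H] [Countable W]
    [MulAction H Ω] [MulAction W Ω] [MulAction W X₀] {M : Measure Ω} {q : Ω → X₀}
    {Z D : Set Ω} {E T : ℕ → Set (X₀ × X₀)} (d : Data Ω X₀ H W M q Z D E T) :
    ∃ (i : MulAction H Z), (∀ (h : H) (z : Z), ∃ w : W, ((i.smul h z : Z) : Ω) = w • h • (z : Ω)) ∧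
      (∀ h : H, Measurable fun z : Z => (i.smul h z : Z)) := by
  classical
  choose κ hκ using fun ω : Ω => (d.domZ ω).exists
  have huniq : ∀ (ω : Ω) (w : W), w • ω ∈ Z → w = κ ω := by
    intro ω w hw
    exact (d.domZ ω).unique hw (hκ ω)
  let act : H → Z → Z := fun h z => ⟨κ (h • (z : Ω)) • (h • (z : Ω)), hκ _⟩
  have hone : ∀ z : Z, act 1 z = z := by
    intro z
    apply Subtype.ext
    show κ ((1 : H) • (z : Ω)) • ((1 : H) • (z : Ω)) = (z : Ω)
    rw [one_smul]
    have : (1 : W) = κ (z : Ω) := huniq _ _ (by rw [one_smul]; exact z.2)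
    rw [← this, one_smul]
  have hmul : ∀ (h h' : H) (z : Z), act (h * h') z = act h (act h' z) := by
    intro h h' z
    apply Subtype.ext
    show κ ((h * h') • (z : Ω)) • ((h * h') • (z : Ω)) =
      κ (h • (κ (h' • (z : Ω)) • (h' • (z : Ω)))) • (h • (κ (h' • (z : Ω)) • (h' • (z : Ω))))
    have e1 : h • (κ (h' • (z : Ω)) • (h' • (z : Ω))) = κ (h' • (z : Ω)) • ((h * h') • (z : Ω)) := by
      rw [d.comm, mul_smul]
    have e2 : κ (h • (κ (h' • (z : Ω)) • (h' • (z : Ω)))) * κ (h' • (z : Ω)) =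
        κ ((h * h') • (z : Ω)) := by
      apply huniq
      rw [mul_smul]
      have := hκ (h • (κ (h' • (z : Ω)) • (h' • (z : Ω))))
      rwa [e1] at this ⊢
    rw [← e2, mul_smul, ← e1]
  refine ⟨{ smul := act, one_smul := hone, mul_smul := hmul }, ?_, ?_⟩
  · intro h z
    exact ⟨κ (h • (z : Ω)), rfl⟩
  · intro h
    show Measurable (act h)
    intro A hA
    obtain ⟨B, hB, rfl⟩ := hA
    have hset : act h ⁻¹' (Subtype.val ⁻¹' B) =
        ⋃ w : W, (fun z : Z => w • (h • (z : Ω))) ⁻¹' (Z ∩ B) := by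
      ext z
      simp only [Set.mem_preimage, Set.mem_iUnion, Set.mem_inter_iff]
      constructor
      · intro hz
        exact ⟨κ (h • (z : Ω)), hκ _, hz⟩
      · rintro ⟨w, hw1, hw2⟩
        have := huniq _ _ hw1
        show κ (h • (z : Ω)) • (h • (z : Ω)) ∈ B
        rw [← this]
        exact hw2
    rw [hset]
    apply MeasurableSet.iUnion
    intro w
    have hm : Measurable (fun z : Z => w • (h • (z : Ω))) :=
      (d.measW w).measurable.comp ((d.measH h).measurable.comp measurable_subtype_coe)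
    exact hm (d.measZ.inter hB)

end ATI.Act
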