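import Pool.Agent.ATI.Defs

set_option autoImplicit false
open MeasureTheory


namespace ATI.Amp
open ATI


/-! ## TARGET (prove this) -/

theorem action_mp {Ω X₀ H W : Type} [MeasurableSpace Ω] [StandardBorelSpace Ω] [MeasurableSpace X₀]
    [Group H] [Group W] [Countable H] [Countable W]
    [MulAction H Ω] [MulAction W Ω] [MulAction W X₀] {M : Measure Ω} {q : Ω → X₀}
    {Z D : Set Ω} {E T : ℕ → Set (X₀ × X₀)} (d : Data Ω X₀ H W M q Z D E T) (h : H)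
    (F : Z → Z) (hF : Measurable F) (hF' : ∀ z : Z, ∃ w : W, (F z : Ω) = w • h • (z : Ω)) :
    MeasurePreserving F (M.comap Subtype.val) (M.comap (Subtype.val : Z → Ω)) := by
  refine ⟨hF, ?_⟩
  ext A hA
  rw [Measure.map_apply hF hA, comap_subtype_coe_apply d.measZ, comap_subtype_coe_apply d.measZ]
  obtain ⟨B, hB⟩ : ∃ B : Set Ω, B = Subtype.val '' A := ⟨_, rfl⟩
  have hBm : MeasurableSet B := by
    rw [hB]
    exact d.measZ.subtype_image hA
  have hBZ : B ⊆ Z := by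
    rw [hB]
    rintro _ ⟨z, _, rfl⟩
    exact z.2
  rw [← hB]
  have hφ : ∀ w : W, MeasurePreserving (fun ω : Ω => w • h • ω) M M := fun w =>
    (d.measW w).comp (d.measH h)
  have hinv : ∀ w : W, Measurable (fun ω : Ω => w⁻¹ • h⁻¹ • ω) := fun w =>
    (d.measW w⁻¹).measurable.comp (d.measH h⁻¹).measurable
  have e1 : Subtype.val '' (F ⁻¹' A) = ⋃ w : W, Z ∩ {ω | w • h • ω ∈ B} := by
    ext ω
    rw [Set.mem_iUnion]
    constructor
    · rintro ⟨z, hz, rfl⟩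
      obtain ⟨w, hw⟩ := hF' z
      refine ⟨w, z.2, ?_⟩
      show w • h • (z : Ω) ∈ B
      rw [← hw, hB]
      exact ⟨F z, hz, rfl⟩
    · rintro ⟨w, hωZ, hω⟩
      refine ⟨⟨ω, hωZ⟩, ?_, rfl⟩
      obtain ⟨w', hw'⟩ := hF' ⟨ω, hωZ⟩
      have h1 : w' = w := by
        apply (d.domZ (h • ω)).unique
        · show w' • h • ω ∈ Z
          rw [← hw']
          exact (F ⟨ω, hωZ⟩).2
        · exact hBZ hω
      have h2 : w • h • ω ∈ B := hω
      rw [← h1] at h2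
      have h3 : ((F ⟨ω, hωZ⟩ : Z) : Ω) ∈ B := by
        rw [hw']
        exact h2
      rw [hB] at h3
      obtain ⟨z, hz, hz2⟩ := h3
      have h4 : z = F ⟨ω, hωZ⟩ := Subtype.ext hz2
      show F ⟨ω, hωZ⟩ ∈ A
      rw [← h4]
      exact hz
  have e2 : B = ⋃ w : W, {ω | w⁻¹ • h⁻¹ • ω ∈ Z} ∩ B := by
    ext ω
    rw [Set.mem_iUnion]
    constructor
    · intro hω
      obtain ⟨w, hw, _⟩ := d.domZ (h⁻¹ • ω)
      refine ⟨w⁻¹, ?_, hω⟩
      show (w⁻¹)⁻¹ • h⁻¹ • ω ∈ Z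
      rw [inv_inv]
      exact hw
    · rintro ⟨w, _, hω⟩
      exact hω
  have hd1 : Pairwise (Function.onFun Disjoint (fun w : W => Z ∩ {ω | w • h • ω ∈ B})) := by
    intro w w' hww'
    rw [Function.onFun, Set.disjoint_left]
    rintro ω ⟨_, h1⟩ ⟨_, h2⟩
    exact hww' ((d.domZ (h • ω)).unique (hBZ h1) (hBZ h2))
  have hd2 : Pairwise (Function.onFun Disjoint
      (fun w : W => {ω | w⁻¹ • h⁻¹ • ω ∈ Z} ∩ B)) := by
    intro w w' hww'
    rw [Function.onFun, Set.disjoint_left]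
    rintro ω ⟨h1, _⟩ ⟨h2, _⟩
    apply hww'
    have h3 := (d.domZ (h⁻¹ • ω)).unique h1 h2
    exact inv_injective h3
  have hm1 : ∀ w : W, MeasurableSet (Z ∩ {ω | w • h • ω ∈ B}) := fun w =>
    d.measZ.inter ((hφ w).measurable hBm)
  have hm2 : ∀ w : W, MeasurableSet ({ω | w⁻¹ • h⁻¹ • ω ∈ Z} ∩ B) := fun w =>
    ((hinv w) d.measZ).inter hBm
  have e3 : ∀ w : W, M (Z ∩ {ω | w • h • ω ∈ B}) = M ({ω | w⁻¹ • h⁻¹ • ω ∈ Z} ∩ B) := by
    intro w
    rw [← (hφ w).measure_preimage (hm2 w).nullMeasurableSet]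
    congr 1
    ext ω
    have h1 : w⁻¹ • h⁻¹ • w • h • ω = ω := by
      rw [d.comm h⁻¹ w, inv_smul_smul, inv_smul_smul]
    constructor
    · rintro ⟨h2, h3⟩
      refine ⟨?_, h3⟩
      show w⁻¹ • h⁻¹ • w • h • ω ∈ Z
      rw [h1]
      exact h2
    · rintro ⟨h2, h3⟩
      refine ⟨?_, h3⟩
      have h4 : w⁻¹ • h⁻¹ • w • h • ω ∈ Z := h2
      rw [h1] at h4
      exact h4
  rw [e1, measure_iUnion hd1 hm1]
  conv_rhs => rw [e2, measure_iUnion hd2 hm2]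
  exact tsum_congr e3

end ATI.Amp
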