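import Pool.Agent.ATI.Defs

set_option autoImplicit false
open MeasureTheory


namespace ATI.Contr
open ATI


/-! ## TARGET (prove this) -/

/-- Contraction of a forest along a retraction with connected fibres. -/
theorem contract {Ω : Type} (G : SimpleGraph Ω) (hac : G.IsAcyclic) (Z R : Set Ω) (p : Ω → Ω)
    (hR : ∀ x, x ∈ R ↔ ∃ z ∈ Z, G.Reachable x z) (hpZ : ∀ z ∈ Z, p z = z)
    (hpR : ∀ x ∈ R, p x ∈ Z)
    (hp : ∀ x ∈ R, ∃ c : G.Walk x (p x), ∀ y ∈ c.support, y ∈ R ∧ p y = p x) :
    (gr {e : Z × Z | ∃ x y : Ω, x ∈ R ∧ y ∈ R ∧ G.Adj x y ∧ p x = e.1 ∧ p y = e.2}).IsAcyclic ∧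
    ∀ x y : Z, (gr {e : Z × Z | ∃ x y : Ω, x ∈ R ∧ y ∈ R ∧ G.Adj x y ∧ p x = e.1 ∧
      p y = e.2}).Reachable x y ↔ G.Reachable (x : Ω) (y : Ω) := by
  set T' : Set (Z × Z) := {e : Z × Z | ∃ x y : Ω, x ∈ R ∧ y ∈ R ∧ G.Adj x y ∧ p x = e.1 ∧
    p y = e.2} with hT'
  have hadj : ∀ a b : Z, (gr T').Adj a b ↔ a ≠ b ∧ ∃ x y : Ω, x ∈ R ∧ y ∈ R ∧ G.Adj x y ∧
      p x = a ∧ p y = b := by
    intro a b
    rw [SimpleGraph.fromRel_adj]
    constructor
    · rintro ⟨h1, h2 | h2⟩
      · exact ⟨h1, h2⟩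
      · obtain ⟨x, y, hx, hy, hxy, e1, e2⟩ := h2
        exact ⟨h1, y, x, hy, hx, hxy.symm, e2, e1⟩
    · rintro ⟨h1, h2⟩
      exact ⟨h1, Or.inl h2⟩
  have hZR : ∀ z ∈ Z, z ∈ R := fun z hz => (hR z).2 ⟨z, hz, SimpleGraph.Reachable.refl z⟩
  have hRp : ∀ x ∈ R, G.Reachable x (p x) := fun x hx => by
    obtain ⟨c, _⟩ := hp x hx
    exact ⟨c⟩
  have hRs : ∀ x ∈ R, ∀ y, G.Reachable x y → y ∈ R := by
    intro x hx y hxy
    obtain ⟨z, hz, hxz⟩ := (hR x).1 hx
    exact (hR y).2 ⟨z, hz, hxy.symm.trans hxz⟩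
  constructor
  · rw [SimpleGraph.isAcyclic_iff_forall_adj_isBridge]
    intro a b hab
    obtain ⟨hne, x, y, hx, hy, hxy, hpx, hpy⟩ := (hadj a b).1 hab
    rw [SimpleGraph.isAcyclic_iff_forall_adj_isBridge] at hac
    have hbr := hac hxy
    rw [SimpleGraph.isBridge_iff] at hbr ⊢
    intro hreach
    apply hbr
    have hne' : p x ≠ p y := by
      rw [hpx, hpy]
      exact fun h => hne (Subtype.ext h)
    have hfib : ∀ v ∈ R, (G.deleteEdges {s(x, y)}).Reachable v (p v) := by
      intro v hv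
      obtain ⟨c, hc⟩ := hp v hv
      refine ⟨c.toDeleteEdges {s(x, y)} ?_⟩
      intro e he hes
      rw [Set.mem_singleton_iff] at hes
      subst hes
      have h1 := (hc x (c.fst_mem_support_of_mem_edges he)).2
      have h2 := (hc y (c.snd_mem_support_of_mem_edges he)).2
      exact hne' (h1.trans h2.symm)
    have hstep : ∀ c d : Z, ((gr T').deleteEdges {s(a, b)}).Adj c d →
        (G.deleteEdges {s(x, y)}).Reachable (c : Ω) (d : Ω) := by
      intro c d hcd
      rw [SimpleGraph.deleteEdges_adj] at hcd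
      obtain ⟨hcd1, hcd2⟩ := hcd
      obtain ⟨_, x', y', hx', hy', hxy', hpx', hpy'⟩ := (hadj c d).1 hcd1
      have hH : (G.deleteEdges {s(x, y)}).Adj x' y' := by
        rw [SimpleGraph.deleteEdges_adj]
        refine ⟨hxy', fun h => hcd2 ?_⟩
        rw [Set.mem_singleton_iff, Sym2.eq_iff] at h ⊢
        rcases h with ⟨h1, h2⟩ | ⟨h1, h2⟩
        · left
          constructor
          · apply Subtype.ext
            rw [← hpx', ← hpx, h1]
          · apply Subtype.ext
            rw [← hpy', ← hpy, h2]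
        · right
          constructor
          · apply Subtype.ext
            rw [← hpx', ← hpy, h1]
          · apply Subtype.ext
            rw [← hpy', ← hpx, h2]
      have h1 := hfib x' hx'
      have h2 := hfib y' hy'
      rw [hpx'] at h1
      rw [hpy'] at h2
      exact h1.symm.trans (hH.reachable.trans h2)
    have hwalk : ∀ c d : Z, ((gr T').deleteEdges {s(a, b)}).Walk c d →
        (G.deleteEdges {s(x, y)}).Reachable (c : Ω) (d : Ω) := by
      intro c d w
      induction w with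
      | nil => exact SimpleGraph.Reachable.refl _
      | cons h _ ih => exact (hstep _ _ h).trans ih
    obtain ⟨w⟩ := hreach
    have h3 := hwalk a b w
    have h1 := hfib x hx
    have h2 := hfib y hy
    rw [hpx] at h1
    rw [hpy] at h2
    exact h1.trans (h3.trans h2.symm)
  · intro x y
    constructor
    · rintro ⟨w⟩
      induction w with
      | nil => exact SimpleGraph.Reachable.refl _
      | cons h _ ih =>
        obtain ⟨_, x', y', hx', hy', hxy', hpx', hpy'⟩ := (hadj _ _).1 h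
        have h1 := hRp x' hx'
        have h2 := hRp y' hy'
        rw [hpx'] at h1
        rw [hpy'] at h2
        exact (h1.symm.trans (hxy'.reachable.trans h2)).trans ih
    · rintro ⟨w⟩
      have key : ∀ u v : Ω, G.Walk u v → ∀ (hu : u ∈ R) (hv : v ∈ R),
          (gr T').Reachable ⟨p u, hpR u hu⟩ ⟨p v, hpR v hv⟩ := by
        intro u v w
        induction w with
        | nil => intro hu hv; exact SimpleGraph.Reachable.refl _
        | @cons u m v h w' ih =>
          intro hu hv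
          have hm : m ∈ R := hRs u hu m h.reachable
          have h1 := ih hm hv
          by_cases he : p u = p m
          · have : (⟨p u, hpR u hu⟩ : Z) = ⟨p m, hpR m hm⟩ := Subtype.ext he
            rw [this]
            exact h1
          · have h2 : (gr T').Adj ⟨p u, hpR u hu⟩ ⟨p m, hpR m hm⟩ :=
              (hadj _ _).2 ⟨fun h' => he (congrArg Subtype.val h'), u, m, hu, hm, h, rfl, rfl⟩
            exact h2.reachable.trans h1
      have h3 := key x y w (hZR _ x.2) (hZR _ y.2)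
      have e1 : (⟨p x, hpR x (hZR _ x.2)⟩ : Z) = x := Subtype.ext (hpZ _ x.2)
      have e2 : (⟨p y, hpR y (hZR _ y.2)⟩ : Z) = y := Subtype.ext (hpZ _ y.2)
      rwa [e1, e2] at h3

end ATI.Contr
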