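import Pool.Agent.ATI.Defs

set_option autoImplicit false
open MeasureTheory


namespace ATI.RRe
open ATI


/-! ## TARGET (prove this) -/

theorem rr_equiv {Ω X₀ H W : Type} [MeasurableSpace Ω] [MeasurableSpace X₀] [Group H] [Group W]
    [MulAction H Ω] [MulAction W Ω] [MulAction W X₀] {M : Measure Ω} {q : Ω → X₀}
    {Z D : Set Ω} {E T : ℕ → Set (X₀ × X₀)} (d : Data Ω X₀ H W M q Z D E T) (n : ℕ) :
    (∀ x, (x, x) ∈ RR H W q (E n)) ∧
    (∀ x y, (x, y) ∈ RR H W q (E n) → (y, x) ∈ RR H W q (E n)) ∧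
    (∀ x y z, (x, y) ∈ RR H W q (E n) → (y, z) ∈ RR H W q (E n) → (x, z) ∈ RR H W q (E n)) := by
  have hE := (d.tree n).reach
  refine ⟨fun x => ⟨(hE _ _).2 (SimpleGraph.Reachable.refl _), 1, 1, ?_⟩, ?_, ?_⟩
  · simp
  · rintro x y ⟨h1, h, w, hw⟩
    refine ⟨(hE _ _).2 ((hE _ _).1 h1).symm, h⁻¹, w⁻¹, ?_⟩
    have hw' : h • w • x = y := hw
    show h⁻¹ • w⁻¹ • y = x
    rw [← hw', d.comm h⁻¹ w⁻¹, inv_smul_smul, inv_smul_smul]
  · rintro x y z ⟨h1, h, w, hw⟩ ⟨h2, h', w', hw2⟩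
    refine ⟨(hE _ _).2 (((hE _ _).1 h1).trans ((hE _ _).1 h2)), h' * h, w' * w, ?_⟩
    have hw' : h • w • x = y := hw
    have hw2' : h' • w' • y = z := hw2
    show (h' * h) • (w' * w) • x = z
    rw [← hw2', ← hw', mul_smul, mul_smul, d.comm h w' (w • x)]

theorem rr_union {Ω X₀ H W : Type} [MeasurableSpace Ω] [MeasurableSpace X₀] [Group H] [Group W]
    [MulAction H Ω] [MulAction W Ω] [MulAction W X₀] {M : Measure Ω} {q : Ω → X₀}
    {Z D : Set Ω} {E T : ℕ → Set (X₀ × X₀)} (d : Data Ω X₀ H W M q Z D E T) (x y : Ω) :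
    (∃ n, (x, y) ∈ RR H W q (E n)) ↔ ∃ (h : H) (w : W), h • w • x = y := by
  constructor
  · rintro ⟨n, h1, h2⟩
    exact h2
  · rintro ⟨h, w, hw⟩
    have hq : ∃ w : W, w • q x = q y := by
      refine ⟨w, ?_⟩
      rw [← hw, d.qH, d.qW]
    obtain ⟨n, hn⟩ := (d.union (q x) (q y)).2 hq
    exact ⟨n, hn, h, w, hw⟩

end ATI.RRe
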