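import Pool.Agent.ATI.Defs
import Pool.Agent.ATI.RRe

set_option autoImplicit false
open MeasureTheory


namespace ATI.LTr
open ATI
open ATI.RRe (rr_equiv rr_union)





/-! ## TARGET (prove this) -/

theorem lt_reach {Ω X₀ H W : Type} [MeasurableSpace Ω] [MeasurableSpace X₀] [Group H] [Group W]
    [MulAction H Ω] [MulAction W Ω] [MulAction W X₀] {M : Measure Ω} {q : Ω → X₀}
    {Z D : Set Ω} {E T : ℕ → Set (X₀ × X₀)} (d : Data Ω X₀ H W M q Z D E T) (n : ℕ) (x y : Ω) :
    (x, y) ∈ RR H W q (E n) ↔ (gr (LT H W q D (T n))).Reachable x y := by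
  have hqs : ∀ a b : X₀, (a, b) ∈ T n → (a, b) ∈ E n := by
    intro a b hab
    rw [(d.tree n).reach]
    by_cases h : a = b
    · rw [h]
    · exact SimpleGraph.Adj.reachable ((SimpleGraph.fromRel_adj _ a b).2 ⟨h, Or.inl hab⟩)
  have hLT : ∀ a b : Ω, (a, b) ∈ LT H W q D (T n) → (a, b) ∈ RR H W q (E n) := by
    rintro a b (⟨-, -, hT, hw⟩ | ⟨-, -, h, hh⟩)
    · exact ⟨hqs _ _ hT, hw⟩
    · refine ⟨?_, h, 1, ?_⟩
      · have hh' : h • a = b := hh
        have : q b = q a := by rw [← hh', d.qH]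
        change (q a, q b) ∈ E n
        rw [this, (d.tree n).reach]
      · rw [one_smul]; exact hh
  obtain ⟨hrefl, hsymm, htrans⟩ := rr_equiv d n
  have hadj : ∀ a b : Ω, (gr (LT H W q D (T n))).Adj a b → (a, b) ∈ RR H W q (E n) := by
    intro a b hab
    rw [SimpleGraph.fromRel_adj] at hab
    rcases hab.2 with h | h
    · exact hLT a b h
    · exact hsymm _ _ (hLT b a h)
  have hA : ∀ (z : Ω) (h : H), h • z ∈ D → (gr (LT H W q D (T n))).Reachable z (h • z) := by
    intro z h hz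
    by_cases hzD : z ∈ D
    · have : h = 1 := (d.domD z).unique hz (by beta_reduce; rw [one_smul]; exact hzD)
      rw [this, one_smul]
    · apply SimpleGraph.Adj.reachable
      rw [SimpleGraph.fromRel_adj]
      refine ⟨?_, Or.inl (Or.inr ⟨hzD, hz, h, rfl⟩)⟩
      intro he
      rw [← he] at hz
      exact hzD hz
  have hB : ∀ (u v : X₀) (p : (gr (T n)).Walk u v) (a : Ω), a ∈ D → q a = u →
      ∃ b ∈ D, q b = v ∧ (gr (LT H W q D (T n))).Reachable a b ∧ ∃ (h : H) (w : W), h • w • a = b := by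
    intro u v p
    induction p with
    | nil =>
      intro a ha hq
      exact ⟨a, ha, hq, SimpleGraph.Reachable.refl _, 1, 1, by rw [one_smul, one_smul]⟩
    | @cons u u' v huu p ih =>
      intro a ha hq
      have hE : (u, u') ∈ E n := by
        rw [(d.tree n).reach]
        exact huu.reachable
      obtain ⟨w, hw⟩ := (d.union u u').1 ⟨n, hE⟩
      obtain ⟨h, hh, -⟩ := d.domD (w • a)
      have hqa' : q (h • w • a) = u' := by rw [d.qH, d.qW, hq, hw]
      obtain ⟨b, hbD, hqb, hreach, h2, w2, hb⟩ := ih (h • w • a) hh hqa'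
      refine ⟨b, hbD, hqb, ?_, h2 * h, w2 * w, ?_⟩
      · refine SimpleGraph.Reachable.trans (SimpleGraph.Adj.reachable ?_) hreach
        rw [SimpleGraph.fromRel_adj] at huu ⊢
        refine ⟨?_, ?_⟩
        · intro he
          apply huu.1
          rw [← hq, ← hqa', ← he]
        · rcases huu.2 with hT | hT
          · exact Or.inl (Or.inl ⟨ha, hh, by change (q a, q (h • w • a)) ∈ T n; rw [hq, hqa']; exact hT,
              h, w, rfl⟩)
          · refine Or.inr (Or.inl ⟨hh, ha, by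
              change (q (h • w • a), q a) ∈ T n
              rw [hq, hqa']
              exact hT, h⁻¹, w⁻¹, ?_⟩)
            change h⁻¹ • w⁻¹ • h • w • a = a
            rw [← d.comm h w⁻¹, inv_smul_smul, inv_smul_smul]
      · rw [← hb, mul_smul, mul_smul, ← d.comm h w2]
  constructor
  · rintro ⟨hE, h, w, hxy⟩
    change h • w • x = y at hxy
    change (q x, q y) ∈ E n at hE
    obtain ⟨h1, hh1, -⟩ := d.domD x
    obtain ⟨h2, hh2, hu2⟩ := d.domD y
    beta_reduce at hh1 hh2
    rw [(d.tree n).reach] at hE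
    obtain ⟨p⟩ := hE
    obtain ⟨b, hbD, hqb, hreach, h3, w3, hb⟩ := hB (q x) (q y) p (h1 • x) hh1 (d.qH h1 x)
    have hx : x = w⁻¹ • h⁻¹ • y := by
      rw [← hxy, inv_smul_smul, inv_smul_smul]
    have hb2 : b = (h3 * h1 * h⁻¹) • (w3 * w⁻¹) • y := by
      rw [← hb]
      conv_lhs => rw [hx]
      rw [mul_smul, mul_smul, mul_smul, ← d.comm h1 w3, ← d.comm h⁻¹ w⁻¹, ← d.comm h⁻¹ w3]
    have hw4 : w3 * w⁻¹ = 1 := by
      apply d.freeW _ (q y)
      rw [← d.qW, ← d.qH (h3 * h1 * h⁻¹), ← hb2, hqb]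
    rw [hw4, one_smul] at hb2
    have hh4 : h3 * h1 * h⁻¹ = h2 := hu2 _ (by beta_reduce; rw [← hb2]; exact hbD)
    rw [hh4] at hb2
    have r1 := hA x h1 hh1
    have r2 := hA y h2 hh2
    rw [hb2] at hreach
    exact (r1.trans hreach).trans r2.symm
  · rintro ⟨p⟩
    induction p with
    | nil => exact hrefl _
    | cons hab p ih => exact htrans _ _ _ (hadj _ _ hab) ih

end ATI.LTr
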