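import Pool.Agent.ATI.Defs

set_option autoImplicit false
open MeasureTheory


namespace ATI.RRm
open ATI


/-! ## TARGET (prove this) -/

theorem rr_meas {Ω X₀ H W : Type} [MeasurableSpace Ω] [StandardBorelSpace Ω] [MeasurableSpace X₀]
    [Group H] [Group W] [Countable H] [Countable W]
    [MulAction H Ω] [MulAction W Ω] [MulAction W X₀] {M : Measure Ω} {q : Ω → X₀}
    {Z D : Set Ω} {E T : ℕ → Set (X₀ × X₀)} (d : Data Ω X₀ H W M q Z D E T) (n : ℕ) :
    MeasurableSet (RR H W q (E n)) ∧ MeasurableSet (LT H W q D (T n)) := by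
  have hq : Measurable (fun p : Ω × Ω => (q p.1, q p.2)) :=
    (d.measq.comp measurable_fst).prodMk (d.measq.comp measurable_snd)
  have hH : ∀ h : H, MeasurableSet {p : Ω × Ω | h • p.1 = p.2} := fun h =>
    measurableSet_eq_fun ((d.measH h).measurable.comp measurable_fst) measurable_snd
  have hHW : ∀ (h : H) (w : W), MeasurableSet {p : Ω × Ω | h • w • p.1 = p.2} := fun h w =>
    measurableSet_eq_fun ((d.measH h).measurable.comp
      ((d.measW w).measurable.comp measurable_fst)) measurable_snd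
  have hO : MeasurableSet {p : Ω × Ω | ∃ (h : H) (w : W), h • w • p.1 = p.2} := by
    have e : {p : Ω × Ω | ∃ (h : H) (w : W), h • w • p.1 = p.2} =
        ⋃ (h : H), ⋃ (w : W), {p : Ω × Ω | h • w • p.1 = p.2} := by
      ext p
      simp
    rw [e]
    exact MeasurableSet.iUnion fun h => MeasurableSet.iUnion fun w => hHW h w
  have hO' : MeasurableSet {p : Ω × Ω | ∃ h : H, h • p.1 = p.2} := by
    have e : {p : Ω × Ω | ∃ h : H, h • p.1 = p.2} =
        ⋃ (h : H), {p : Ω × Ω | h • p.1 = p.2} := by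
      ext p
      simp
    rw [e]
    exact MeasurableSet.iUnion fun h => hH h
  have hD1 : MeasurableSet {p : Ω × Ω | p.1 ∈ D} := measurable_fst d.measD
  have hD2 : MeasurableSet {p : Ω × Ω | p.2 ∈ D} := measurable_snd d.measD
  have hE : MeasurableSet {p : Ω × Ω | (q p.1, q p.2) ∈ E n} := hq (d.measE n)
  have hT : MeasurableSet {p : Ω × Ω | (q p.1, q p.2) ∈ T n} := hq (d.tree n).meas
  refine ⟨hE.inter hO, ?_⟩
  exact (hD1.inter (hD2.inter (hT.inter hO))).union (hD1.compl.inter (hD2.inter hO'))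

end ATI.RRm
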