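import Pool.Agent.ATI.Defs
import Pool.Agent.Helper634.AT.Restrict

set_option autoImplicit false
open MeasureTheory

namespace ATI.Res
open ATI

theorem restrict {Ω Γ : Type} [MeasurableSpace Ω] [StandardBorelSpace Ω] [Group Γ] [Countable Γ]
    [MulAction Γ Ω] (hΓ : ∀ g : Γ, Measurable fun x : Ω => g • x) (T : Set (Ω × Ω))
    (hT : MeasurableSet T) (hTΓ : ∀ x y, (x, y) ∈ T → ∃ g : Γ, g • x = y)
    (hac : (gr T).IsAcyclic) (Z : Set Ω) (hZ : MeasurableSet Z) :
    ∃ T' : Set (Z × Z), MeasurableSet T' ∧ (gr T').IsAcyclic ∧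
      ∀ x y : Z, (gr T').Reachable x y ↔ (gr T).Reachable (x : Ω) (y : Ω) := by
  have hgr : (SimpleGraph.fromRel (fun x y : Ω => (x, y) ∈ (T ∪ Prod.swap ⁻¹' T : Set (Ω × Ω)))) =
      gr T := by
    ext x y
    simp only [SimpleGraph.fromRel_adj, Set.mem_union, Set.mem_preimage, Prod.swap_prod_mk]
    tauto
  obtain ⟨T2, h1, _, h3, h4⟩ := Pool.Agent.Helper634.AT.restrict hΓ (T ∪ Prod.swap ⁻¹' T)
    (hT.union (measurable_swap hT))
    (by
      rintro x y (h | h)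
      · exact Or.inr h
      · exact Or.inl h)
    (by
      rintro x y (h | h)
      · exact hTΓ x y h
      · obtain ⟨g, hg⟩ := hTΓ y x h
        exact ⟨g⁻¹, by rw [← hg, inv_smul_smul]⟩)
    (by rw [hgr]; exact hac) Z hZ
  refine ⟨T2, h1, h3, ?_⟩
  intro x y
  rw [← hgr]
  exact h4 x y

end ATI.Res
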