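import Pool.Agent.ATI.Defs
import Pool.Agent.ATI.RRe
import Pool.Agent.ATI.RRm
import Pool.Agent.ATI.LTa
import Pool.Agent.ATI.LTr
import Pool.Agent.ATI.Res
import Pool.Agent.ATI.Act
import Pool.Agent.ATI.Amp

set_option autoImplicit false
open MeasureTheory


namespace ATI.Ind
open ATI
open ATI.RRe (rr_equiv rr_union)
open ATI.RRm (rr_meas)
open ATI.LTa (lt_acyclic)
open ATI.LTr (lt_reach)
open ATI.Res (restrict)
open ATI.Act (action)
open ATI.Amp (action_mp)











/-! ## TARGET (prove this) -/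

/-- The main induction theorem. -/
theorem induct {Ω X₀ H W : Type} [MeasurableSpace Ω] [StandardBorelSpace Ω] [MeasurableSpace X₀]
    [Group H] [Group W] [Countable H] [Countable W]
    [MulAction H Ω] [MulAction W Ω] [MulAction W X₀] {M : Measure Ω} {q : Ω → X₀}
    {Z D : Set Ω} {E T : ℕ → Set (X₀ × X₀)} (d : Data Ω X₀ H W M q Z D E T) :
    ∃ (X : Type) (_ : MeasurableSpace X) (_ : StandardBorelSpace X)
      (μ : Measure X) (_ : IsProbabilityMeasure μ) (_ : MulAction H X),
      (∀ g : H, MeasurePreserving (fun x : X => g • x) μ μ) ∧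
      (∀ᵐ x ∂μ, ∀ g : H, g • x = x → g = 1) ∧
      ∃ S : ℕ → Set (X × X),
        (∀ n, MeasurableSet (S n)) ∧
        (∀ n, ∀ x : X, (x, x) ∈ S n) ∧
        (∀ n, ∀ x y : X, (x, y) ∈ S n → (y, x) ∈ S n) ∧
        (∀ n, ∀ x y z : X, (x, y) ∈ S n → (y, z) ∈ S n → (x, z) ∈ S n) ∧
        (∀ n, S n ⊆ S (n + 1)) ∧
        (∀ x y : X, (∃ n, (x, y) ∈ S n) ↔ ∃ g : H, g • x = y) ∧
        (∀ n, ∃ G : Set (X × X), MeasurableSet G ∧ G ⊆ S n ∧
          ∃ Y : Set X, MeasurableSet Y ∧ μ Yᶜ = 0 ∧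
            (∀ g : H, ∀ x ∈ Y, g • x ∈ Y) ∧
            ((SimpleGraph.fromRel (fun x y : X => (x, y) ∈ G)).induce Y).IsAcyclic ∧
            (∀ x y : Y,
              (((x : X), (y : X)) ∈ S n ↔
                ((SimpleGraph.fromRel (fun x y : X => (x, y) ∈ G)).induce Y).Reachable x y))) := by
  classical
  obtain ⟨i, hi, him⟩ := action d
  have hsb : StandardBorelSpace Z := d.measZ.standardBorel
  set μ0 : Measure Z := M.comap (Subtype.val : Z → Ω) with hμ0
  have hμ0u : μ0 Set.univ = M Z := by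
    rw [hμ0, (MeasurableEmbedding.subtype_coe d.measZ).comap_apply, Set.image_univ,
      Subtype.range_coe]
  have hprob : IsProbabilityMeasure ((M Z)⁻¹ • μ0) := ⟨by
    rw [Measure.smul_apply, hμ0u, smul_eq_mul, ENNReal.inv_mul_cancel d.posZ d.finZ]⟩
  -- orbit relation of the induced action
  have horb : ∀ x y : Z, (∃ (h : H) (w : W), h • w • (x : Ω) = y) ↔ ∃ g : H, i.smul g x = y := by
    intro x y
    constructor
    · rintro ⟨h, w, hw⟩
      refine ⟨h, ?_⟩
      obtain ⟨w', hw'⟩ := hi h x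
      apply Subtype.ext
      rw [d.comm] at hw
      have h1 : w • h • (x : Ω) ∈ Z := by rw [hw]; exact y.2
      have h2 : w' • h • (x : Ω) ∈ Z := by rw [← hw']; exact (i.smul h x).2
      have h3 : w' = w := (d.domZ (h • (x : Ω))).unique h2 h1
      rw [hw', h3, hw]
    · rintro ⟨g, hg⟩
      obtain ⟨w, hw⟩ := hi g x
      refine ⟨g, w, ?_⟩
      rw [d.comm, ← hw, hg]
  refine ⟨Z, inferInstance, hsb, (M Z)⁻¹ • μ0, hprob, i, ?_, ?_,
    fun n => {p : Z × Z | ((p.1 : Ω), (p.2 : Ω)) ∈ RR H W q (E n)}, ?_, ?_, ?_, ?_, ?_, ?_, ?_⟩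
  · intro g
    exact (action_mp d g (fun z => i.smul g z) (him g) (hi g)).smul_measure _
  · refine Filter.Eventually.of_forall ?_
    intro z g hg
    obtain ⟨w, hw⟩ := hi g z
    have hg' : i.smul g z = z := hg
    rw [hg'] at hw
    have h1 : w • q (z : Ω) = q z := by
      conv_rhs => rw [hw, d.qW, d.qH]
    have h2 := d.freeW w _ h1
    rw [h2, one_smul] at hw
    exact d.freeH g _ hw.symm
  · intro n
    have h1 : Measurable (fun p : Z × Z => ((p.1 : Ω), (p.2 : Ω))) :=
      (measurable_subtype_coe.comp measurable_fst).prodMk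
        (measurable_subtype_coe.comp measurable_snd)
    exact h1 (rr_meas d n).1
  · intro n x
    exact (rr_equiv d n).1 x
  · intro n x y hxy
    exact (rr_equiv d n).2.1 _ _ hxy
  · intro n x y z hxy hyz
    exact (rr_equiv d n).2.2 _ _ _ hxy hyz
  · intro n p hp
    exact ⟨d.mono n hp.1, hp.2⟩
  · intro x y
    exact (rr_union d (x : Ω) (y : Ω)).trans (horb x y)
  · intro n
    letI iHW : MulAction (H × W) Ω :=
      { smul := fun g ω => g.1 • g.2 • ω
        one_smul := by
          intro ω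
          show (1 : H) • (1 : W) • ω = ω
          rw [one_smul, one_smul]
        mul_smul := by
          intro a b ω
          show (a.1 * b.1) • (a.2 * b.2) • ω = a.1 • a.2 • (b.1 • b.2 • ω)
          rw [mul_smul, mul_smul, d.comm b.1 a.2] }
    have hΓ : ∀ g : H × W, Measurable fun x : Ω => g • x := by
      intro g
      exact (d.measH g.1).measurable.comp (d.measW g.2).measurable
    have hTΓ : ∀ x y, (x, y) ∈ LT H W q D (T n) → ∃ g : H × W, g • x = y := by
      rintro x y (⟨-, -, -, h, w, hw⟩ | ⟨-, -, h, hh⟩)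
      · exact ⟨(h, w), hw⟩
      · refine ⟨(h, 1), ?_⟩
        show h • (1 : W) • x = y
        rw [one_smul]
        exact hh
    obtain ⟨T', hT'm, hT'a, hT'r⟩ := restrict hΓ (LT H W q D (T n)) (rr_meas d n).2 hTΓ
      (lt_acyclic d n) Z d.measZ
    have hreach : ∀ x y : Z, ((x : Ω), (y : Ω)) ∈ RR H W q (E n) ↔ (gr T').Reachable x y :=
      fun x y => (lt_reach d n x y).trans (hT'r x y).symm
    refine ⟨T', hT'm, ?_, Set.univ, MeasurableSet.univ, ?_, fun _ _ _ => Set.mem_univ _, ?_, ?_⟩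
    · rintro ⟨x, y⟩ hxy
      show ((x : Ω), (y : Ω)) ∈ RR H W q (E n)
      rw [hreach]
      by_cases hne : x = y
      · rw [hne]
      · apply SimpleGraph.Adj.reachable
        exact ⟨hne, Or.inl hxy⟩
    · rw [Set.compl_univ, measure_empty]
    · exact hT'a.induce _
    · intro x y
      have h1 := SimpleGraph.Iso.reachable_iff (φ := SimpleGraph.induceUnivIso (gr T')) (u := x)
        (v := y)
      exact (hreach x.1 y.1).trans h1

end ATI.Ind
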