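import Pool.Agent.AT.Defs

set_option autoImplicit false
open MeasureTheory

namespace ATI.Reach
open Pool.Agent.AT (MTree ATSys AlmTree)

/-- pairs joined by the path with group labels `l` -/
def pth {Γ X : Type} [Group Γ] [MeasurableSpace X] [MulAction Γ X] (F : MTree Γ X) :
    List Γ → Set (X × X)
  | [] => {p | p.1 = p.2}
  | g :: l => {p | F.gr.Adj p.1 (g • p.1) ∧ (g • p.1, p.2) ∈ pth F l}

theorem pth_meas {Γ X : Type} [Group Γ] [Countable Γ] [MeasurableSpace X] [StandardBorelSpace X]
    [MulAction Γ X] (hm : ∀ g : Γ, Measurable fun x : X => g • x) (F : MTree Γ X) (l : List Γ) :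
    MeasurableSet (pth F l) := by
  induction l with
  | nil => exact measurableSet_eq_fun measurable_fst measurable_snd
  | cons g l ih =>
    refine MeasurableSet.inter (measurable_fst (F.meas g)) ?_
    exact (((hm g).comp measurable_fst).prodMk measurable_snd) ih

theorem reach_iff {Γ X : Type} [Group Γ] [MeasurableSpace X] [MulAction Γ X] (F : MTree Γ X)
    (x y : X) : F.gr.Reachable x y ↔ ∃ l : List Γ, (x, y) ∈ pth F l := by
  constructor
  · rintro ⟨p⟩
    induction p with
    | nil => exact ⟨[], rfl⟩
    | cons hadj _ ih =>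
      obtain ⟨l, hl⟩ := ih
      obtain ⟨g, hg⟩ := F.orb _ _ hadj
      refine ⟨g :: l, ?_, ?_⟩
      · rw [← hg]; exact hadj
      · rw [← hg]; exact hl
  · rintro ⟨l, hl⟩
    induction l generalizing x with
    | nil =>
      have : x = y := hl
      rw [this]
    | cons g l ih =>
      obtain ⟨h1, h2⟩ := hl
      have h1' : F.gr.Adj x (g • x) := h1
      exact h1'.reachable.trans (ih _ h2)

theorem reach_meas {Γ X : Type} [Group Γ] [Countable Γ] [MeasurableSpace X] [StandardBorelSpace X]
    [MulAction Γ X] (hm : ∀ g : Γ, Measurable fun x : X => g • x) (F : MTree Γ X) :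
    MeasurableSet {p : X × X | F.gr.Reachable p.1 p.2} ∧
    MeasurableSet {p : X × X | F.gr.Adj p.1 p.2} := by
  constructor
  · have : {p : X × X | F.gr.Reachable p.1 p.2} = ⋃ l : List Γ, pth F l := by
      ext ⟨x, y⟩
      rw [Set.mem_iUnion]
      exact reach_iff F x y
    rw [this]
    exact MeasurableSet.iUnion fun l => pth_meas hm F l
  · have : {p : X × X | F.gr.Adj p.1 p.2} = ⋃ g : Γ, pth F [g] := by
      ext ⟨x, y⟩
      rw [Set.mem_iUnion]
      constructor
      · intro h
        have h' : F.gr.Adj x y := h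
        obtain ⟨g, hg⟩ := F.orb _ _ h'
        exact ⟨g, by rw [hg] at h'; exact h', hg.symm⟩
      · rintro ⟨g, h1, h2⟩
        have h2' : g • x = y := h2
        have h1' : F.gr.Adj x (g • x) := h1
        rw [h2'] at h1'
        exact h1'
    rw [this]
    exact MeasurableSet.iUnion fun g => pth_meas hm F [g]

end ATI.Reach
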