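import Pool.Agent.AT.Geo2
import Pool.Agent.ATI.Ind
import Pool.Agent.ATI.Reach

set_option autoImplicit false
open MeasureTheory

namespace ATI.StI
open ATI
open Pool.Agent.AT (MTree ATSys AlmTree)

open ATI.Reach (reach_meas)

theorem almTree_of {G H W X₀ : Type} [Group G] [MeasurableSpace G] [StandardBorelSpace G]
    [Group H] [Countable H] [Group W] [Countable W] [MeasurableSpace X₀] [StandardBorelSpace X₀]
    [MulAction W X₀] (m : Measure G) [SigmaFinite m] (hm0 : m ≠ 0)
    (μ₀ : Measure X₀) [IsProbabilityMeasure μ₀]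
    (j : H →* G) (hj : Function.Injective j) (b : W →* G)
    (hl : ∀ h : H, MeasurePreserving (fun g : G => j h * g) m m)
    (hr : ∀ w : W, MeasurePreserving (fun g : G => g * (b w)⁻¹) m m)
    (FW FH : Set G) (hFWm : MeasurableSet FW) (hFHm : MeasurableSet FH)
    (hFW : ∀ g : G, ∃! w : W, g * (b w)⁻¹ ∈ FW) (hFH : ∀ g : G, ∃! h : H, j h * g ∈ FH)
    (hFWt : m FW ≠ ⊤)
    (hX : ∀ w : W, MeasurePreserving (fun x : X₀ => w • x) μ₀ μ₀)
    (hfree : ∀ (x : X₀) (w : W), w • x = x → w = 1) (A : ATSys W X₀) : AlmTree H := by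
  let iH : MulAction H (G × X₀) :=
    { smul := fun h p => (j h * p.1, p.2)
      one_smul := fun p => by
        show (j 1 * p.1, p.2) = p
        rw [map_one, one_mul]
      mul_smul := fun h h' p => by
        show (j (h * h') * p.1, p.2) = (j h * (j h' * p.1), p.2)
        rw [map_mul, mul_assoc] }
  let iW : MulAction W (G × X₀) :=
    { smul := fun w p => (p.1 * (b w)⁻¹, w • p.2)
      one_smul := fun p => by
        show (p.1 * (b 1)⁻¹, (1 : W) • p.2) = p
        rw [map_one, inv_one, mul_one, one_smul]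
      mul_smul := fun w w' p => by
        show (p.1 * (b (w * w'))⁻¹, (w * w') • p.2) = (p.1 * (b w')⁻¹ * (b w)⁻¹, w • w' • p.2)
        rw [map_mul, mul_inv_rev, mul_assoc, mul_smul] }
  have eH : ∀ (h : H) (p : G × X₀), h • p = (j h * p.1, p.2) := fun h p => rfl
  have eW : ∀ (w : W) (p : G × X₀), w • p = (p.1 * (b w)⁻¹, w • p.2) := fun w p => rfl
  have hXm : ∀ w : W, Measurable fun x : X₀ => w • x := fun w => (hX w).measurable
  have d : Data (G × X₀) X₀ H W (m.prod μ₀) Prod.snd (FW ×ˢ Set.univ) (FH ×ˢ Set.univ)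
      (fun n => {p : X₀ × X₀ | (A.tr n).gr.Reachable p.1 p.2})
      (fun n => {p : X₀ × X₀ | (A.tr n).gr.Adj p.1 p.2}) := by
    refine ⟨?_, ?_, ?_, measurable_snd, ?_, ?_, hXm, ?_, ?_, ?_, ?_, ?_, ?_, ?_, ?_, ?_, ?_, ?_, ?_⟩
    · intro h w p
      rw [eH, eW, eW, eH, mul_assoc]
    · intro h
      exact (hl h).prod (MeasurePreserving.id μ₀)
    · intro w
      exact (hr w).prod (hX w)
    · intro h p
      rw [eH]
    · intro w p
      rw [eW]
    · intro w x hx
      exact hfree x w hx
    · intro h p hp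
      rw [eH] at hp
      have h1 := congrArg Prod.fst hp
      have h2 : j h * p.1 = p.1 := h1
      have h3 : j h = 1 := mul_eq_right.1 h2
      exact hj (h3.trans (map_one j).symm)
    · exact hFWm.prod MeasurableSet.univ
    · intro p
      obtain ⟨w, h1, h2⟩ := hFW p.1
      refine ⟨w, ⟨h1, Set.mem_univ _⟩, ?_⟩
      rintro w' ⟨h3, _⟩
      exact h2 w' h3
    · rw [Measure.prod_prod, measure_univ, mul_one]
      intro h0
      apply hm0
      have hcov : (Set.univ : Set G) ⊆ ⋃ w : W, (fun g : G => g * (b w)⁻¹) ⁻¹' FW := by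
        intro g _
        obtain ⟨w, h1, _⟩ := hFW g
        exact Set.mem_iUnion.2 ⟨w, h1⟩
      have h4 : m (⋃ w : W, (fun g : G => g * (b w)⁻¹) ⁻¹' FW) = 0 := by
        rw [measure_iUnion_null_iff]
        intro w
        rw [(hr w).measure_preimage hFWm.nullMeasurableSet, h0]
      exact Measure.measure_univ_eq_zero.1 (measure_mono_null hcov h4)
    · rw [Measure.prod_prod, measure_univ, mul_one]
      exact hFWt
    · exact hFHm.prod MeasurableSet.univ
    · intro p
      obtain ⟨w, h1, h2⟩ := hFH p.1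
      refine ⟨w, ⟨h1, Set.mem_univ _⟩, ?_⟩
      rintro w' ⟨h3, _⟩
      exact h2 w' h3
    · intro n
      exact (reach_meas hXm (A.tr n)).1
    · rintro n ⟨x, y⟩ h
      exact A.mono n x y h
    · intro x y
      constructor
      · rintro ⟨n, hn⟩
        have key : ∀ {a c : X₀}, (A.tr n).gr.Walk a c → ∃ w : W, w • a = c := by
          intro a c p
          induction p with
          | nil => exact ⟨1, one_smul _ _⟩
          | cons hadj _ ih =>
            obtain ⟨w, hw⟩ := ih
            obtain ⟨w', hw'⟩ := (A.tr n).orb _ _ hadj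
            exact ⟨w * w', by rw [mul_smul, ← hw', hw]⟩
        obtain ⟨p⟩ := hn
        exact key p
      · rintro ⟨w, rfl⟩
        exact A.exhaust x w
    · intro n
      have hgr : gr {p : X₀ × X₀ | (A.tr n).gr.Adj p.1 p.2} = (A.tr n).gr := by
        ext x y
        rw [SimpleGraph.fromRel_adj]
        constructor
        · rintro ⟨_, h | h⟩
          · exact h
          · exact SimpleGraph.Adj.symm h
        · intro h
          exact ⟨h.ne, Or.inl h⟩
      refine ⟨(reach_meas hXm (A.tr n)).2, ?_, ?_⟩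
      · rw [hgr]
        exact (A.tr n).acyc
      · intro x y
        rw [hgr]
        rfl
  exact ATI.Ind.induct d

theorem stI : Pool.Agent.AT.StI := by
  intro Γ W' _ _ _ _ G' _ _ _ _ _ a b m _ D F X₀ _ _ μ₀ _ _ ha hb hD hD' hF hF' hF0 hFt hX hfree hA
  obtain ⟨A⟩ := hA
  have hinj : Function.Injective a := by
    rw [injective_iff_map_eq_one]
    intro γ hγ
    obtain ⟨γ₀, h1, h2⟩ := hD' 1
    have h3 : a (γ₀ * γ) * 1 ∈ D := by
      rw [map_mul, hγ, mul_one]
      exact h1
    have h4 := h2 _ h3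
    exact mul_eq_left.1 h4
  have hm0 : m ≠ 0 := by
    rintro rfl
    exact hF0 rfl
  refine almTree_of m hm0 μ₀ a hinj b ha ?_ {g | g⁻¹ ∈ F} D ?_ hD ?_ hD' hFt hX hfree A
  · intro w
    have := hb w⁻¹
    rwa [map_inv] at this
  · exact measurable_inv hF
  · intro g
    obtain ⟨w, h1, h2⟩ := hF' g
    refine ⟨w, ?_, ?_⟩
    · show (g * (b w)⁻¹)⁻¹ ∈ F
      rw [mul_inv_rev, inv_inv]
      exact h1
    · intro w' hw'
      have hw2 : (g * (b w')⁻¹)⁻¹ ∈ F := hw'
      rw [mul_inv_rev, inv_inv] at hw2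
      exact h2 w' hw2

end ATI.StI
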